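import Pool.Agent.W544.KF.SDefs

/-!
Raising the degree and twisting with the sign (project KG).
-/

open CategoryTheory MonoidalCategory

namespace Pool.Agent.W986.KG

open Pool.Agent.W544.KF

universe w v u

theorem sign_prm {F : Type w} [Field F] (n : ℕ) (l : List (Fin n)) :
    (((Equiv.Perm.sign (prm n l) : ℤˣ) : ℤ) : F) = (-1) ^ l.length := by
  induction l with
  | nil => simp [prm]
  | cons i l ih =>
    have h : i.castSucc ≠ i.succ := ne_of_lt (Fin.castSucc_lt_succ)
    simp only [prm, map_mul, Equiv.Perm.sign_swap h, List.length_cons, pow_succ]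
    push_cast
    rw [ih]
    ring

theorem sign : S_sign.{w} := by
  intro F _ n c hc s hs c' hc'
  obtain ⟨σ, hσ⟩ := hc
  have hs0 : s ≠ 0 := by
    rcases hs with rfl | rfl
    · exact one_ne_zero
    · exact neg_ne_zero.2 one_ne_zero
  have hsupp : c'.support = c.support := by
    ext w
    simp only [Finsupp.mem_support_iff, hc']
    exact mul_ne_zero_iff.trans ⟨fun h => h.2, fun h => ⟨pow_ne_zero _ hs0, h⟩⟩
  have hfib : ∃ e : F, e ≠ 0 ∧ ∀ w, prm n w = σ → s ^ w.length = e := by
    rcases hs with rfl | rfl
    · exact ⟨1, one_ne_zero, fun w _ => one_pow _⟩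
    · refine ⟨(((Equiv.Perm.sign σ : ℤˣ) : ℤ) : F), ?_, fun w hw => ?_⟩
      · rcases Int.units_eq_one_or (Equiv.Perm.sign σ) with h | h
        · rw [h]; simp
        · rw [h]; simp
      · rw [← hw, sign_prm]
  obtain ⟨e, he, hfib⟩ := hfib
  refine ⟨σ, ?_⟩
  rw [hsupp]
  have : (∑ w ∈ c.support with prm n w = σ, c' w)
      = e * ∑ w ∈ c.support with prm n w = σ, c w := by
    rw [Finset.mul_sum]
    apply Finset.sum_congr rfl
    intro w hw
    rw [hc', hfib w (Finset.mem_filter.1 hw).2]
  rw [this]
  exact mul_ne_zero he hσ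

/-- the shift of words -/
def sh (n : ℕ) : List (Fin n) ↪ List (Fin (n + 1)) :=
  ⟨List.map Fin.succ, List.map_injective_iff.2 (Fin.succ_injective n)⟩

theorem act_sh {D : Type u} [Category.{v} D] [MonoidalCategory D] [SymmetricCategory D] (M : D)
    (n : ℕ) (l : List (Fin n)) : act M (n + 1) (sh n l) = M ◁ act M n l := by
  induction l with
  | nil => exact (MonoidalCategory.whiskerLeft_id M (pw M n)).symm
  | cons i l ih =>
    have h : act M (n + 1) (sh n (i :: l)) = (M ◁ swi M n i) ≫ act M (n + 1) (sh n l) := rfl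
    rw [h, ih]
    exact (MonoidalCategory.whiskerLeft_comp M (swi M n i) (act M n l)).symm

theorem prm_sh (n : ℕ) (l : List (Fin n)) :
    prm (n + 1) (sh n l) 0 = 0 ∧ ∀ x, prm (n + 1) (sh n l) (Fin.succ x) = Fin.succ (prm n l x) := by
  induction l with
  | nil => exact ⟨rfl, fun x => rfl⟩
  | cons i l ih =>
    have h : prm (n + 1) (sh n (i :: l)) =
      Equiv.swap i.succ.castSucc i.succ.succ * prm (n + 1) (sh n l) := rfl
    have h' : prm n (i :: l) = Equiv.swap i.castSucc i.succ * prm n l := rfl
    rw [h, h']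
    constructor
    · rw [Equiv.Perm.mul_apply, ih.1]
      apply Equiv.swap_apply_of_ne_of_ne
      · rw [← Fin.succ_castSucc]
        exact (Fin.succ_ne_zero _).symm
      · exact (Fin.succ_ne_zero _).symm
    · intro x
      rw [Equiv.Perm.mul_apply, Equiv.Perm.mul_apply, ih.2, ← Fin.succ_castSucc]
      exact ((Fin.succ_injective _).map_swap _ _ _).symm

theorem prm_sh_iff (n : ℕ) (l l' : List (Fin n)) :
    prm (n + 1) (sh n l) = prm (n + 1) (sh n l') ↔ prm n l = prm n l' := by
  constructor
  · intro h
    ext1 x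
    have := congrArg (fun p => p (Fin.succ x)) h
    simp only [(prm_sh n l).2, (prm_sh n l').2] at this
    exact Fin.succ_injective _ this
  · intro h
    ext1 x
    refine Fin.cases ?_ (fun y => ?_) x
    · rw [(prm_sh n l).1, (prm_sh n l').1]
    · rw [(prm_sh n l).2, (prm_sh n l').2, h]

theorem raise : S_raise.{w, v, u} := by
  intro F _ D _ _ _ _ _ _ _ M n c hc h0 m hm
  induction m, hm using Nat.le_induction with
  | base => exact ⟨c, hc, h0⟩
  | succ m hm ih =>
    obtain ⟨c, ⟨σ, hσ⟩, h0⟩ := ih
    refine ⟨c.embDomain (sh m), ?_, ?_⟩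
    · have hne : (c.support.filter fun w => prm m w = σ).Nonempty := by
        rw [Finset.nonempty_iff_ne_empty]
        intro he
        apply hσ
        rw [he, Finset.sum_empty]
      obtain ⟨w0, hw0⟩ := hne
      have hw : prm m w0 = σ := (Finset.mem_filter.1 hw0).2
      refine ⟨prm (m + 1) (sh m w0), ?_⟩
      rw [Finsupp.support_embDomain, Finset.filter_map, Finset.sum_map]
      have : (c.support.filter ((fun w => prm (m + 1) w = prm (m + 1) (sh m w0)) ∘ (sh m))) =
          c.support.filter fun w => prm m w = σ := by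
        apply Finset.filter_congr
        intro w _
        rw [← hw]
        exact prm_sh_iff m w w0
      rw [this]
      simpa only [Finsupp.embDomain_apply_self] using hσ
    · rw [Finsupp.support_embDomain, Finset.sum_map]
      have : ∀ w ∈ c.support, (c.embDomain (sh m)) (sh m w) • act M (m + 1) (sh m w) =
          M ◁ (c w • act M m w) := by
        intro w _
        rw [Finsupp.embDomain_apply_self, act_sh, MonoidalLinear.whiskerLeft_smul]
        rfl
      have key : ∑ x ∈ c.support,
          (M ◁ (c x • act M m x) : (M ⊗ pw M m) ⟶ (M ⊗ pw M m)) = 0 := by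
        rw [← whiskerLeft_sum, h0]
        exact MonoidalPreadditive.whiskerLeft_zero
      exact (Finset.sum_congr rfl this).trans key

end Pool.Agent.W986.KG
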